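import Mathlib
import Pool.Agent.Lib6a4ab5.Defs
import Pool.Agent.Lib6a4ab5.R1
import Pool.Agent.Lib6a4ab5.Zykov
import Pool.Agent.Lib6a4ab5.Equit
import Pool.Agent.Lib6a4ab5.UGraph
import Pool.Agent.Lib6a4ab5.TuranUpper

set_option autoImplicit false

namespace Pool.Agent.Results.MP_6a4ab5_co.Unbalanced

open SimpleGraph Pool.Agent.Lib6a4ab5

/-- For `k = 4`, the pattern `P0` with classes `{01, 23}, {02}, {03}, {12}, {13}` and `r = 385`:
`P0` is neither the rainbow pattern `⊥` nor the monochromatic pattern `⊤`, `r_1(P0) < 385`, and for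
arbitrarily large `n` there are complete multipartite `(385, P0)`-extremal graphs on `n` vertices
while none of them is equitable. -/
theorem result :
    P0 ≠ ⊥ ∧ P0 ≠ ⊤ ∧ (∃ R, IsR1 P0 R ∧ R < 385) ∧
    ∀ N : ℕ, ∃ n ≥ N,
      (∃ G : SimpleGraph (Fin n), IsExtr 385 P0 G ∧ G.IsCompleteMultipartite) ∧
      ∀ G : SimpleGraph (Fin n), IsExtr 385 P0 G → G.IsCompleteMultipartite → ¬ IsEquitable G := by
  refine ⟨P0_ne_bot, P0_ne_top, r1_lt, ?_⟩
  obtain ⟨n0, hn0⟩ := turan_all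
  intro N
  obtain ⟨j, hj⟩ : ∃ j, j = N + n0 + 1 := ⟨_, rfl⟩
  refine ⟨6000 * j, by omega, exists_multipartite _ _, ?_⟩
  intro G hG hM hE
  obtain ⟨m, hm1, hmn, ⟨φ⟩⟩ := equitable_iso (by omega) G hM hE
  have h1 := numFree_iso_le (r := 385) P0 G _ φ
  have h2 := hG (UG j)
  have h3 := hn0 (6000 * j) (by omega) m hm1 hmn
  have h4 := log_lower_U j
  have h5 : numFree 385 P0 (UG j) ≤ numFree 385 P0 (turanGraph (6000 * j) m) := h2.trans h1
  rcases Nat.eq_zero_or_pos (numFree 385 P0 (UG j)) with h0 | h0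
  · rw [h0, Nat.cast_zero, Real.log_zero] at h4
    have hL0 : 0 < Lam36 := lt_trans (by positivity) Lam36_lo
    have hj0 : (0 : ℝ) < ((6000 * j : ℕ) : ℝ) := by exact_mod_cast (show 0 < 6000 * j by omega)
    have : 0 < ((6000 * j : ℕ) : ℝ) ^ 2 * (Lam36 / 36 + 2 / 10 ^ 6) := by positivity
    linarith
  · have h6 : Real.log (numFree 385 P0 (UG j)) ≤
        Real.log (numFree 385 P0 (turanGraph (6000 * j) m)) :=
      Real.log_le_log (by exact_mod_cast h0) (by exact_mod_cast h5)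
    linarith

end Pool.Agent.Results.MP_6a4ab5_co.Unbalanced
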